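import Pool.Agent.H395R2.G3.Main
import Pool.Agent.W33.Coll.Main

set_option autoImplicit false

/-!
The scaled stopping time constant of the `3x+1` function has the value predicted by the repeated random
walk model if and only if for every larger constant the exceptions (even: the runs of exceptions of some
fixed length) up to `x` are at most `x ^ ε` in number, for every `ε > 0`.
-/

namespace Pool.Agent.Results.MP_f7abf1_nt.RareExceptions

open Filter Topology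

/-- The `3x+1` function. -/
def T (n : ℕ) : ℕ := if n % 2 = 0 then n / 2 else (3 * n + 1) / 2

/-- `g(a) = sup_θ (θ a - log (½ (2^θ + (2/3)^θ)))`. -/
noncomputable def g (a : ℝ) : ℝ :=
  ⨆ θ : ℝ, (θ * a - Real.log ((1 / 2) * ((2 : ℝ) ^ θ + (2 / 3 : ℝ) ^ θ)))

/-- `σ_∞(n) ≤ c log n`: one of the iterates `T^(k)(n)`, `k ≤ c log n`, is `1`. -/
def Fast (c : ℝ) (n : ℕ) : Prop := ∃ k : ℕ, (k : ℝ) ≤ c * Real.log n ∧ T^[k] n = 1

/-- `σ_∞(n)` is finite for all `n ≥ 1` and `limsup σ_∞(n) / log n = γ`. -/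
def IsScaledConstant (γ : ℝ) : Prop :=
  (∀ n : ℕ, 1 ≤ n → ∃ k : ℕ, T^[k] n = 1) ∧
  (∀ ε : ℝ, 0 < ε → ∀ᶠ n : ℕ in atTop, Fast (γ + ε) n) ∧
  (∀ ε : ℝ, 0 < ε → ∃ᶠ n : ℕ in atTop, ¬ Fast (γ - ε) n)

/-- The number of the `n`, `1 ≤ n ≤ x`, such that all the `H` integers `n, ..., n + H - 1` have total
stopping time larger than `α` times their logarithm. -/
noncomputable def slowRuns (α : ℝ) (H : ℕ) (x : ℝ) : ℕ :=
  {n : ℕ | 1 ≤ n ∧ (n : ℝ) ≤ x ∧ ∀ h < H, ¬ Fast α (n + h)}.ncard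

theorem slowRuns_eq (α : ℝ) (H : ℕ) (x : ℝ) :
    slowRuns α H x = (Pool.Agent.W33.Coll.Bad Set.univ α H x).ncard := by
  unfold slowRuns Pool.Agent.W33.Coll.Bad
  congr 1
  ext n
  constructor
  · rintro ⟨h1, h2, h3⟩
    exact ⟨h1, h2, Set.mem_univ _, h3⟩
  · rintro ⟨h1, h2, _, h3⟩
    exact ⟨h1, h2, h3⟩

theorem inv_univ : Pool.Agent.W33.Coll.Inv Set.univ := fun _ _ => Iff.rfl

/-- There is exactly one real `γ₀ > μ = (½ log (4/3))⁻¹` with `γ₀ g(1/γ₀) = 1` (the constant `γ_RRW`), it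
lies between `41.6776` and `41.6777`, and the following are equivalent:

(1) `γ = γ₀`, that is, all `σ_∞(n)` are finite and `limsup σ_∞(n) / log n = γ₀` (this is Q1);

(2) for all `α > γ₀` and `ε > 0` at most `x ^ ε` of the `n ≤ x` have `σ_∞(n) > α log n`, `x` large;

(3) for all `α > γ₀` and `ε > 0` there is `H` such that for all large `x` at most `x ^ ε` of the `n ≤ x`
start a run of `H` such exceptions;

(4) for every `η > 0` there are `α > μ`, `0 < δ ≤ 1` and `H` with `μ + (α - μ) / δ < γ₀ + η` such that for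
all large `x` at most `x ^ (1 - δ)` of the `n ≤ x` start a run of `H` integers with
`σ_∞(m) > α log m`. -/
theorem result : ∃ γ₀ : ℝ,
    (γ₀ > ((1 / 2) * Real.log (4 / 3))⁻¹ ∧ γ₀ * g (1 / γ₀) = 1) ∧
    (∀ γ : ℝ, γ > ((1 / 2) * Real.log (4 / 3))⁻¹ → γ * g (1 / γ) = 1 → γ = γ₀) ∧
    (41.6776 < γ₀ ∧ γ₀ < 41.6777) ∧
    [IsScaledConstant γ₀,
      ∀ α : ℝ, γ₀ < α → ∀ ε : ℝ, 0 < ε → ∀ᶠ x : ℝ in atTop, (slowRuns α 1 x : ℝ) ≤ x ^ ε,
      ∀ α : ℝ, γ₀ < α → ∀ ε : ℝ, 0 < ε → ∃ H : ℕ, ∀ᶠ x : ℝ in atTop, (slowRuns α H x : ℝ) ≤ x ^ ε,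
      ∀ η : ℝ, 0 < η → ∃ (α δ : ℝ) (H : ℕ), ((1 / 2) * Real.log (4 / 3))⁻¹ < α ∧ 0 < δ ∧ δ ≤ 1 ∧
        ((1 / 2) * Real.log (4 / 3))⁻¹ + (α - ((1 / 2) * Real.log (4 / 3))⁻¹) / δ < γ₀ + η ∧
        ∀ᶠ x : ℝ in atTop, (slowRuns α H x : ℝ) ≤ x ^ (1 - δ)].TFAE := by
  obtain ⟨γ₀, hnum, hγ, huniq, hlow, _⟩ := Pool.Agent.H395R2.G3.main_gamma
  refine ⟨γ₀, hγ, huniq, hnum, ?_⟩
  have hl0 : 0 < Real.log (4 / 3) := Real.log_pos (by norm_num)
  have hμe : ((1 / 2) * Real.log (4 / 3))⁻¹ = 2 / Real.log (4 / 3) := by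
    field_simp
  have hγ1 : 2 / Real.log (4 / 3) < γ₀ := by rw [← hμe]; exact hγ.1
  rw [hμe]
  set μ := 2 / Real.log (4 / 3) with hμ
  tfae_have 1 → 2 := by
    rintro ⟨_, h, _⟩ α hα ε hε
    obtain ⟨N, hN⟩ := eventually_atTop.1 (h (α - γ₀) (by linarith))
    filter_upwards [(tendsto_rpow_atTop hε).eventually_ge_atTop (N : ℝ)] with x hx
    refine le_trans ?_ hx
    have hsub : {n : ℕ | 1 ≤ n ∧ (n : ℝ) ≤ x ∧ ∀ h < 1, ¬ Fast α (n + h)} ⊆
        ((Finset.range N : Finset ℕ) : Set ℕ) := by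
      rintro n ⟨_, _, h4⟩
      rw [Finset.mem_coe, Finset.mem_range]
      by_contra hcon
      have h5 := hN n (by omega)
      rw [add_sub_cancel] at h5
      exact h4 0 one_pos h5
    have h2 := Set.ncard_le_ncard hsub (Finset.finite_toSet _)
    rw [Set.ncard_coe_finset, Finset.card_range] at h2
    exact_mod_cast h2
  tfae_have 2 → 3 := fun h α hα ε hε => ⟨1, h α hα ε hε⟩
  tfae_have 3 → 4 := by
    intro h η hη
    set α := γ₀ + η / 4 with hα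
    have hαμ : 0 < α - μ := by rw [hα]; linarith
    set δ := (α - μ) / (α - μ + η / 2) with hδ
    have hδ0 : 0 < δ := by positivity
    have hδ1 : δ < 1 := by
      rw [hδ, div_lt_one (by positivity)]
      linarith
    have hval : (α - μ) / δ = α - μ + η / 2 := by
      rw [hδ]
      field_simp
    obtain ⟨H, hH⟩ := h α (by rw [hα]; linarith) (1 - δ) (by linarith)
    refine ⟨α, δ, H, by linarith, hδ0, hδ1.le, ?_, hH⟩
    rw [hval, hα]
    linarith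
  tfae_have 4 → 1 := by
    intro h
    have hup : ∀ ε : ℝ, 0 < ε → ∃ N : ℕ, ∀ n : ℕ, N ≤ n → Pool.Agent.W33.Coll.Fast (γ₀ + ε) n := by
      intro ε hε
      obtain ⟨α, δ, H, h1, h2, h3, h4, h5⟩ := h (ε / 2) (half_pos hε)
      obtain ⟨X, hX⟩ := eventually_atTop.1 h5
      obtain ⟨N, hN⟩ := Pool.Agent.W33.Coll.transfer inv_univ (H := H) h1 h2 h3 (half_pos hε)
        ⟨X, fun x hx => by rw [← slowRuns_eq]; exact hX x hx⟩
      refine ⟨N, fun n hn => Pool.Agent.W33.Coll.fast_mono ?_ (hN n hn (Set.mem_univ _))⟩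
      linarith
    refine ⟨fun n hn => ?_, fun ε hε => ?_, fun ε hε => ?_⟩
    · obtain ⟨N, hN⟩ := hup 1 one_pos
      exact Pool.Agent.W33.Coll.reach_all inv_univ (M₀ := N) (fun m h1 _ _ => by
        obtain ⟨k, _, hk⟩ := hN m h1
        exact ⟨k, hk⟩) hn (Set.mem_univ _)
    · obtain ⟨N, hN⟩ := hup ε hε
      exact eventually_atTop.2 ⟨N, fun n hn => hN n hn⟩
    · rw [frequently_atTop]
      intro N
      obtain ⟨n, hn, hn2, k, hk1, hk2⟩ := hlow (ε / 2) (half_pos hε) N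
      refine ⟨n, hn, ?_⟩
      rintro ⟨j, hj, hj1⟩
      have hlog : 0 < Real.log n := Real.log_pos (by exact_mod_cast hn2)
      have hkj : k ≤ j := hk1.2 hj1
      have hkj' : (k : ℝ) ≤ j := by exact_mod_cast hkj
      nlinarith
  tfae_finish

end Pool.Agent.Results.MP_f7abf1_nt.RareExceptions
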